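import Pool.Agent.TH915.SL.Fin

/-!
# Primes `⌊x n ^ n⌋ + 1` for almost every amplitude `x`

At `x = 1` these are the numbers `n ^ n + 1`. For almost every `x > 0` there are infinitely many
primes `⌊x n ^ n⌋ + 1`, and the number of them with `n ≤ N` is `log log N` up to an error of square
root size. More generally, along every set `S` of indices there is a complete zero-one law with
asymptotics, according to the divergence of the sum of `1 / (n log n)` over `S`. For the indices
`n = 2 ^ (2 ^ k)`, the only ones at which `n ^ n + 1` can be prime when `n > 1`, the sum converges, and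
for almost every `x > 0` only finitely many of the numbers `⌊x n ^ n⌋ + 1` with such an index are
prime.

Proof: means and correlations of the events by the prime number theorem with the classical error
term, for pairs `m ^ 4 ≤ n`, and by the Brun-Titchmarsh inequality for the other pairs; a chaining
argument (Gál-Koksma).
-/

set_option autoImplicit false

namespace Pool.Agent.Results.MP_a70bdc_nt.AmplitudeLaw

open Filter Topology MeasureTheory

/-- the integer `⌊x n ^ n⌋ + 1` -/
noncomputable def W (x : ℝ) (n : ℕ) : ℕ := ⌊((n ^ n : ℕ) : ℝ) * x⌋₊ + 1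

open Classical in
/-- the number of `n ≤ N` in `S` with `W x n` prime -/
noncomputable def M (S : Set ℕ) (x : ℝ) (N : ℕ) : ℕ :=
  ((Finset.range (N + 1)).filter (fun n => n ∈ S ∧ (W x n).Prime)).card

open Classical in
/-- the expected number -/
noncomputable def V (S : Set ℕ) (N : ℕ) : ℝ :=
  ∑ n ∈ (Finset.range (N + 1)).filter (fun n => n ∈ S), 1 / ((n : ℝ) * Real.log n)

/-- the error term -/
noncomputable def G (v : ℝ) : ℝ := Real.sqrt (1 + v) * (1 + Real.log (1 + v)) ^ 2

lemma sh : Pool.Agent.TH915.SL.Sh (fun k => k + 1) := Or.inl fun _ => rfl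

open Classical in
/-- the series over the special indices converges -/
lemma special : Summable fun n : ℕ =>
    if n ∈ Set.range (fun k : ℕ => 2 ^ (2 ^ k)) then 1 / ((n : ℝ) * Real.log n) else 0 := by
  have hinj : Function.Injective (fun k : ℕ => 2 ^ (2 ^ k)) := by
    intro a b h
    simp only at h
    exact Nat.pow_right_injective le_rfl (Nat.pow_right_injective le_rfl h)
  refine (hinj.summable_iff ?_).1 ?_
  · intro n hn
    rw [if_neg hn]
  · refine Summable.of_nonneg_of_le (f := fun k : ℕ => 2 * (1 / 2 : ℝ) ^ k) (fun k => ?_)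
      (fun k => ?_) ((summable_geometric_of_lt_one (by norm_num) (by norm_num)).mul_left 2)
    · simp only [Function.comp, Set.mem_range, exists_apply_eq_apply, if_true]
      have := Real.log_natCast_nonneg (2 ^ 2 ^ k)
      positivity
    · simp only [Function.comp, Set.mem_range, exists_apply_eq_apply, if_true]
      have h1 : (2 : ℝ) ^ k ≤ ((2 ^ 2 ^ k : ℕ) : ℝ) := by
        push_cast
        exact pow_le_pow_right₀ (by norm_num) (Nat.lt_two_pow_self (n := k)).le
      have h2 : Real.log 2 ≤ Real.log ((2 ^ 2 ^ k : ℕ) : ℝ) := by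
        apply Real.log_le_log two_pos
        push_cast
        calc (2 : ℝ) = 2 ^ 1 := (pow_one 2).symm
          _ ≤ 2 ^ 2 ^ k := pow_le_pow_right₀ (by norm_num) Nat.one_le_two_pow
      have h3 := Real.log_two_gt_d9
      have h4 : (0 : ℝ) < 2 ^ k := by positivity
      rw [one_div_pow, mul_one_div]
      rw [div_le_div_iff₀ (by nlinarith) h4]
      have h5 : (1 / 2 : ℝ) ≤ Real.log ((2 ^ 2 ^ k : ℕ) : ℝ) := by linarith
      have h6 : (0 : ℝ) < ((2 ^ 2 ^ k : ℕ) : ℝ) := by linarith
      nlinarith

open Classical in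
/-- **Primes `⌊x n ^ n⌋ + 1` for almost every amplitude.** -/
theorem result :
    -- at `x = 1`: the numbers of the problem
    (∀ n : ℕ, W 1 n = n ^ n + 1) ∧
    -- the law for all indices
    (∀ᵐ x : ℝ, 0 < x → ∃ B : ℝ, ∀ N : ℕ, 3 ≤ N →
      |(M Set.univ x N : ℝ) - Real.log (Real.log N)| ≤ B * G (Real.log (Real.log N))) ∧
    -- the law along a set of indices
    (∀ S : Set ℕ, (¬ Summable fun n : ℕ => if n ∈ S then 1 / ((n : ℝ) * Real.log n) else 0) →
      ∀ᵐ x : ℝ, 0 < x → ∃ B : ℝ, ∀ N : ℕ, |(M S x N : ℝ) - V S N| ≤ B * G (V S N)) ∧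
    -- the convergence case
    (∀ S : Set ℕ, (Summable fun n : ℕ => if n ∈ S then 1 / ((n : ℝ) * Real.log n) else 0) →
      ∀ᵐ x : ℝ, 0 < x → {n : ℕ | n ∈ S ∧ (W x n).Prime}.Finite) ∧
    -- the indices which matter at `x = 1`
    (∀ᵐ x : ℝ, 0 < x → {k : ℕ | (W x (2 ^ 2 ^ k)).Prime}.Finite) := by
  have hfin : ∀ S : Set ℕ,
      (Summable fun n : ℕ => if n ∈ S then 1 / ((n : ℝ) * Real.log n) else 0) →
      ∀ᵐ x : ℝ, 0 < x → {n : ℕ | n ∈ S ∧ (W x n).Prime}.Finite := fun S hS =>
    Pool.Agent.TH915.SL.set_fin sh Pool.Agent.TH915.SL.gr_npow S hS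
  refine ⟨fun n => ?_, ?_, fun S hS => ?_, hfin, ?_⟩
  · unfold W
    rw [mul_one, Nat.floor_natCast]
  · filter_upwards [Pool.Agent.TH915.SL.main_law sh Pool.Agent.TH915.SL.gr_npow
      Pool.Agent.TH915.SL.npow_sum] with x hx hx0
    obtain ⟨B, hB⟩ := hx hx0
    refine ⟨B, fun N hN => ?_⟩
    have h1 := hB N hN
    have e1 : (M Set.univ x N : ℝ) =
        (((Finset.range (N + 1)).filter
          (fun n => (⌊((n ^ n : ℕ) : ℝ) * x⌋₊ + 1).Prime)).card : ℝ) := by
      unfold M W
      congr 2
      ext n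
      simp
    rw [e1]
    exact h1
  · filter_upwards [Pool.Agent.TH915.SL.set_law sh Pool.Agent.TH915.SL.gr_npow S hS] with x hx hx0
    obtain ⟨B, hB⟩ := hx hx0
    refine ⟨B, fun N => ?_⟩
    have h1 := hB (N + 1)
    simp only [Pool.Agent.TH915.SL.log_npow] at h1
    exact h1
  · filter_upwards [hfin _ special] with x hx hx0
    refine Set.Finite.of_finite_image ((hx hx0).subset ?_) (f := fun k : ℕ => 2 ^ (2 ^ k)) ?_
    · rintro _ ⟨k, hk, rfl⟩
      exact ⟨⟨k, rfl⟩, hk⟩
    · intro a _ b _ h
      simp only at h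
      exact Nat.pow_right_injective le_rfl (Nat.pow_right_injective le_rfl h)

end Pool.Agent.Results.MP_a70bdc_nt.AmplitudeLaw
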