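import Pool.Agent.TH915.SH.Fin

/-!
# Primes `n ^ n + ⌊x (n ^ n) ^ (1 - δ)⌋ + 1` for almost every `x`

At `x = 0` these are the numbers `n ^ n + 1`; for `x > 0` they are perturbed by a factor
`1 + x n ^ (-δ n)`. There is `δ > 0` such that for almost every `x > 0` infinitely many of them are
prime. More generally there is a zero-one law along every set of indices, according to the divergence
of the sum of `1 / (n log n)`; at the indices `n = 2 ^ (2 ^ k)`, the only ones with `n > 1` at which
`n ^ n + 1` can be prime, there are only finitely many primes for almost every `x`.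

Proof: primes in short intervals (positive proportion) for the means, Brun-Titchmarsh for single
events and pairs, second moment, Lebesgue density theorem, Borel-Cantelli lemma.
-/

set_option autoImplicit false

namespace Pool.Agent.Results.MP_a70bdc_nt.SmallPerturbations

open Filter Topology MeasureTheory

/-- the integer `n ^ n + ⌊x (n ^ n) ^ (1 - δ)⌋ + 1` -/
noncomputable def W (δ x : ℝ) (n : ℕ) : ℕ := n ^ n + ⌊((n ^ n : ℕ) : ℝ) ^ (1 - δ) * x⌋₊ + 1

open Classical in
/-- the number of `n < N` in `S` with `W δ x n` prime -/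
noncomputable def M (δ : ℝ) (S : Set ℕ) (x : ℝ) (N : ℕ) : ℕ :=
  ((Finset.range N).filter (fun n => n ∈ S ∧ (W δ x n).Prime)).card

open Classical in
/-- the series -/
noncomputable def V (S : Set ℕ) (N : ℕ) : ℝ :=
  ∑ n ∈ Finset.range N, if n ∈ S then 1 / ((n : ℝ) * Real.log n) else 0

open Classical in
/-- the series over the special indices converges -/
lemma special : Summable fun n : ℕ =>
    if n ∈ Set.range (fun k : ℕ => 2 ^ (2 ^ k)) then 1 / ((n : ℝ) * Real.log n) else 0 := by
  have hinj : Function.Injective (fun k : ℕ => 2 ^ (2 ^ k)) := by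
    intro a b h
    simp only at h
    exact Nat.pow_right_injective le_rfl (Nat.pow_right_injective le_rfl h)
  refine (hinj.summable_iff ?_).1 ?_
  · intro n hn
    rw [if_neg hn]
  · refine Summable.of_nonneg_of_le (f := fun k : ℕ => 2 * (1 / 2 : ℝ) ^ k) (fun k => ?_)
      (fun k => ?_) ((summable_geometric_of_lt_one (by norm_num) (by norm_num)).mul_left 2)
    · simp only [Function.comp, Set.mem_range, exists_apply_eq_apply, if_true]
      have := Real.log_natCast_nonneg (2 ^ 2 ^ k)
      positivity
    · simp only [Function.comp, Set.mem_range, exists_apply_eq_apply, if_true]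
      have h1 : (2 : ℝ) ^ k ≤ ((2 ^ 2 ^ k : ℕ) : ℝ) := by
        push_cast
        exact pow_le_pow_right₀ (by norm_num) (Nat.lt_two_pow_self (n := k)).le
      have h2 : Real.log 2 ≤ Real.log ((2 ^ 2 ^ k : ℕ) : ℝ) := by
        apply Real.log_le_log two_pos
        push_cast
        calc (2 : ℝ) = 2 ^ 1 := (pow_one 2).symm
          _ ≤ 2 ^ 2 ^ k := pow_le_pow_right₀ (by norm_num) Nat.one_le_two_pow
      have h3 := Real.log_two_gt_d9
      have h4 : (0 : ℝ) < 2 ^ k := by positivity
      rw [one_div_pow, mul_one_div]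
      rw [div_le_div_iff₀ (by nlinarith) h4]
      have h5 : (1 / 2 : ℝ) ≤ Real.log ((2 ^ 2 ^ k : ℕ) : ℝ) := by linarith
      have h6 : (0 : ℝ) < ((2 ^ 2 ^ k : ℕ) : ℝ) := by linarith
      nlinarith

open Classical in
/-- **Primes near `n ^ n`.** -/
theorem result :
    -- at `x = 0`: the numbers of the problem
    (∀ (δ : ℝ) (n : ℕ), W δ 0 n = n ^ n + 1) ∧
    ∃ δ c : ℝ, 0 < δ ∧ δ < 1 ∧ 0 < c ∧
      -- the divergence case
      (∀ S : Set ℕ, (¬ Summable fun n : ℕ => if n ∈ S then 1 / ((n : ℝ) * Real.log n) else 0) →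
        ∀ᵐ x : ℝ, 0 < x → (∃ᶠ N : ℕ in atTop, c * V S N < M δ S x N) ∧
          {n : ℕ | n ∈ S ∧ (W δ x n).Prime}.Infinite) ∧
      -- the convergence case
      (∀ S : Set ℕ, (Summable fun n : ℕ => if n ∈ S then 1 / ((n : ℝ) * Real.log n) else 0) →
        ∀ᵐ x : ℝ, 0 < x → {n : ℕ | n ∈ S ∧ (W δ x n).Prime}.Finite) ∧
      -- the indices which matter at `x = 0`
      (∀ᵐ x : ℝ, 0 < x → {k : ℕ | (W δ x (2 ^ 2 ^ k)).Prime}.Finite) := by
  refine ⟨fun δ n => by unfold W; rw [mul_zero, Nat.floor_zero, add_zero], ?_⟩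
  obtain ⟨δ, c, hδ, hδ1, hc, h1, h2⟩ := Pool.Agent.TH915.SH.main
  refine ⟨δ, c, hδ, hδ1, hc, fun S hS => ?_, h2, ?_⟩
  · filter_upwards [h1 S hS] with x hx hx0
    have h3 := hx hx0
    refine ⟨h3, fun hfin => ?_⟩
    have hV : Tendsto (V S) atTop atTop :=
      (not_summable_iff_tendsto_nat_atTop_of_nonneg
        (f := fun n : ℕ => if n ∈ S then 1 / ((n : ℝ) * Real.log n) else 0) (fun n => by
          split_ifs
          · have := Real.log_natCast_nonneg n
            positivity
          · exact le_rfl)).1 hS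
    have hb : ∀ N, (M δ S x N : ℝ) ≤ (hfin.toFinset.card : ℝ) := by
      intro N
      have : M δ S x N ≤ hfin.toFinset.card := by
        unfold M
        refine Finset.card_le_card fun n hn => ?_
        rw [Finset.mem_filter] at hn
        rw [Set.Finite.mem_toFinset]
        exact hn.2
      exact_mod_cast this
    obtain ⟨N0, hN0⟩ := eventually_atTop.1
      (hV.eventually_ge_atTop ((hfin.toFinset.card : ℝ) / c))
    rw [frequently_atTop] at h3
    obtain ⟨N, hN1, hN2⟩ := h3 N0
    have h4 := hN0 N hN1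
    rw [div_le_iff₀ hc] at h4
    have h5 := hb N
    have h6 : c * V S N < (M δ S x N : ℝ) := hN2
    linarith
  · filter_upwards [h2 _ special] with x hx hx0
    refine Set.Finite.of_finite_image ((hx hx0).subset ?_) (f := fun k : ℕ => 2 ^ (2 ^ k)) ?_
    · rintro _ ⟨k, hk, rfl⟩
      exact ⟨⟨k, rfl⟩, hk⟩
    · intro a _ b _ h
      simp only at h
      exact Nat.pow_right_injective le_rfl (Nat.pow_right_injective le_rfl h)

end Pool.Agent.Results.MP_a70bdc_nt.SmallPerturbations
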